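import Pool.Agent.Lib.MP_6bc78b_nt.MS.L.Iface

set_option autoImplicit false

open Filter Topology ArithmeticFunction

namespace Pool.Agent.Lib.MP_6bc78b_nt.MS.L.H74

theorem bb_zero {lam T : ℝ} {a : ℕ} (h : ¬ (a : ℝ) ≤ T ^ lam) : bb lam T a = 0 := by
  show bbf lam T a = 0
  unfold bbf
  rw [if_neg h]

theorem bb_zero' {lam T : ℝ} {a : ℕ} (h : ¬ IsPrimePow a) : bb lam T a = 0 := by
  show bbf lam T a = 0
  unfold bbf
  split_ifs with h1
  · rw [ArithmeticFunction.vonMangoldt_eq_zero_iff.2 h]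
    simp
  · rfl

/-- the convolution as a sum over `a` -/
theorem conv (lam T : ℝ) (hT : 1 < T) (hlam : 0 < lam) (α : ArithmeticFunction ℝ) (n : ℕ) :
    (α * bb lam T) n = ∑ a ∈ Finset.Icc 1 ⌊T ^ lam⌋₊, if a ∣ n then bb lam T a * α (n / a) else 0 := by
  rcases Nat.eq_zero_or_pos n with rfl | hn
  · simp
  rw [ArithmeticFunction.mul_apply,
    Nat.sum_divisorsAntidiagonal' (f := fun x y => α x * bb lam T y)]
  have hpos : 0 ≤ T ^ lam := by positivity
  have h1 : ∑ i ∈ n.divisors, α (n / i) * bb lam T i =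
      ∑ i ∈ n.divisors.filter (fun i => i ∈ Finset.Icc 1 ⌊T ^ lam⌋₊), bb lam T i * α (n / i) := by
    rw [Finset.sum_filter]
    refine Finset.sum_congr rfl fun i hi => ?_
    have hi1 : 1 ≤ i := Nat.pos_of_mem_divisors hi
    split_ifs with h2
    · ring
    · have : ¬ (i : ℝ) ≤ T ^ lam := by
        intro h3
        apply h2
        rw [Finset.mem_Icc]
        exact ⟨hi1, Nat.le_floor h3⟩
      rw [bb_zero this]; ring
  rw [h1, ← Finset.sum_filter]
  refine Finset.sum_congr ?_ fun _ _ => rfl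
  ext i
  rw [Finset.mem_filter, Finset.mem_filter, Nat.mem_divisors]
  constructor
  · rintro ⟨⟨h2, -⟩, h3⟩
    exact ⟨h3, h2⟩
  · rintro ⟨h2, h3⟩
    exact ⟨⟨h3, hn.ne'⟩, h2⟩

/-- change of variables `k = c k'` -/
theorem reindex (α : ArithmeticFunction ℝ) (T : ℝ) (j d e a c : ℕ) (ρ : ℝ) (hc : 0 < c)
    (h1 : ∀ k, a ∣ d * k ↔ c ∣ k) (h2 : ∀ k, d * (c * k) / a = e * k) :
    ∑' k : ℕ, (if a ∣ d * k then α (d * k / a) * Fj T j ((k : ℝ) / ρ) else 0) =
      HH α T j e (ρ / c) := by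
  unfold HH
  have hinj : Function.Injective (fun k : ℕ => c * k) := fun x y hxy =>
    Nat.eq_of_mul_eq_mul_left hc hxy
  have hsup : Function.support (fun k : ℕ =>
      (if a ∣ d * k then α (d * k / a) * Fj T j ((k : ℝ) / ρ) else 0)) ⊆
        Set.range (fun k : ℕ => c * k) := by
    intro k hk
    rw [Function.mem_support] at hk
    by_contra hcon
    apply hk
    rw [if_neg]
    rw [h1]
    rintro ⟨m, rfl⟩
    exact hcon ⟨m, rfl⟩
  rw [← hinj.tsum_eq hsup]
  refine tsum_congr fun k => ?_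
  have hc0 : (c : ℝ) ≠ 0 := by exact_mod_cast hc.ne'
  rw [if_pos ((h1 (c * k)).2 (dvd_mul_right c k)), h2]
  congr 2
  push_cast
  rw [div_div_eq_mul_div, mul_comm]

theorem id2 (h : GrwStatement) : Id2Statement := by
  intro lam T j d ρ α hlam hT hρ hd hα
  obtain ⟨-, -, -, -, -, hsumm, -⟩ := h
  obtain ⟨C, m, hC⟩ := hα
  have hd0 : 0 < d := Nat.pos_of_ne_zero hd.ne_zero
  have hC0 : 0 ≤ C := by
    have := hC 1
    have h1 : |α 1| ≤ C := by simpa using this
    exact (abs_nonneg _).trans h1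
  have hS : ∀ a ∈ Finset.Icc 1 ⌊T ^ lam⌋₊, Summable (fun k : ℕ =>
      (if a ∣ d * k then bb lam T a * α (d * k / a) else 0) * Fj T j ((k : ℝ) / ρ)) := by
    intro a ha
    refine hsumm _ (|bb lam T a| * (C * (d : ℝ) ^ m)) m (fun k => ?_) T j ρ hT hρ
    split_ifs with h1
    · rw [abs_mul]
      have h2 : |α (d * k / a)| ≤ C * (((d * k / a : ℕ) : ℝ)) ^ m := hC _
      have h3 : (((d * k / a : ℕ) : ℝ)) ^ m ≤ ((d : ℝ) * k) ^ m := by
        apply pow_le_pow_left₀ (Nat.cast_nonneg _)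
        have : d * k / a ≤ d * k := Nat.div_le_self _ _
        exact_mod_cast this
      calc |bb lam T a| * |α (d * k / a)| ≤ |bb lam T a| * (C * ((d : ℝ) * k) ^ m) :=
            mul_le_mul_of_nonneg_left (h2.trans (mul_le_mul_of_nonneg_left h3 hC0)) (abs_nonneg _)
        _ = |bb lam T a| * (C * (d : ℝ) ^ m) * (k : ℝ) ^ m := by rw [mul_pow]; ring
    · rw [abs_zero]; positivity
  have h1 : HH (α * bb lam T) T j d ρ = ∑' k : ℕ, ∑ a ∈ Finset.Icc 1 ⌊T ^ lam⌋₊,
      (if a ∣ d * k then bb lam T a * α (d * k / a) else 0) * Fj T j ((k : ℝ) / ρ) := by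
    unfold HH
    refine tsum_congr fun k => ?_
    rw [conv lam T hT hlam, Finset.sum_mul]
  rw [h1, Summable.tsum_finsetSum hS]
  refine Finset.sum_congr rfl fun a ha => ?_
  rw [Finset.mem_Icc] at ha
  by_cases hpp : IsPrimePow a
  swap
  · rw [bb_zero' hpp]
    simp
  have h2 : ∑' k : ℕ, (if a ∣ d * k then bb lam T a * α (d * k / a) else 0) * Fj T j ((k : ℝ) / ρ) =
      bb lam T a * ∑' k : ℕ, (if a ∣ d * k then α (d * k / a) * Fj T j ((k : ℝ) / ρ) else 0) := by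
    rw [← tsum_mul_left]
    refine tsum_congr fun k => ?_
    split_ifs <;> ring
  rw [h2]
  congr 1
  have ha1 : a ≠ 1 := hpp.ne_one
  have hp : a.minFac.Prime := Nat.minFac_prime ha1
  obtain ⟨p, hpd⟩ : ∃ p, p = a.minFac := ⟨_, rfl⟩
  obtain ⟨i, hi0, hai⟩ : ∃ i, 0 < i ∧ a = p ^ i := by
    obtain ⟨q, i, hq, hi, rfl⟩ := hpp
    have hq' : q.Prime := hq.nat_prime
    refine ⟨i, hi, ?_⟩
    rw [hpd, hq'.pow_minFac hi.ne']
  rw [← hpd] at hp ⊢
  split_ifs with hpdvd
  · -- p divides d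
    obtain ⟨d', rfl⟩ := hpdvd
    have hcop : Nat.Coprime p d' := (Nat.squarefree_mul_iff.1 hd).1
    have hd' : p * d' / p = d' := Nat.mul_div_cancel_left d' hp.pos
    obtain ⟨i', rfl⟩ : ∃ i', i = i' + 1 := ⟨i - 1, by omega⟩
    have hcp : 0 < p ^ i' := pow_pos hp.pos _
    rw [hd']
    have hρ' : ρ * (p : ℝ) / (a : ℝ) = ρ / ((p ^ i' : ℕ) : ℝ) := by
      rw [hai]
      push_cast
      have hp0 : (p : ℝ) ≠ 0 := by exact_mod_cast hp.pos.ne'
      rw [pow_succ]
      field_simp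
    rw [hρ']
    apply reindex α T j (p * d') d' a (p ^ i') ρ hcp
    · intro k
      rw [hai, pow_succ, mul_comm (p ^ i') p, mul_assoc, Nat.mul_dvd_mul_iff_left hp.pos]
      exact (Nat.Coprime.pow_left i' hcop).dvd_mul_left
    · intro k
      rw [hai]
      have : p * d' * (p ^ i' * k) = p ^ (i' + 1) * (d' * k) := by ring
      rw [this, Nat.mul_div_cancel_left _ (pow_pos hp.pos _)]
  · have hcop : Nat.Coprime p d := (Nat.Prime.coprime_iff_not_dvd hp).2 hpdvd
    have hcp : 0 < a := by omega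
    apply reindex α T j d d a a ρ hcp
    · intro k
      rw [hai]
      exact (Nat.Coprime.pow_left i hcop).dvd_mul_left
    · intro k
      have : d * (a * k) = a * (d * k) := by ring
      rw [this, Nat.mul_div_cancel_left _ hcp]

end Pool.Agent.Lib.MP_6bc78b_nt.MS.L.H74
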